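import Pool.Agent.TH943.TP.Nf

/-!
The Selmer group conjecture for the Jacobians of the curves `v ^ (p ^ s) = (x - h(t)) ^ b f(x) ^ c` over
`k(t)`, where `k` is a finitely generated field over which the Galois group of `f(h(t))` contains a
full cycle.
-/

set_option autoImplicit false
set_option maxHeartbeats 1000000

open Polynomial

namespace Pool.Agent.Results.MP_1bdb59_nt.FinitelyGeneratedFields

section reduction

variable {κ : Type} [Field κ]

/-- The value of the function `(x - h(t)) ^ b f(x) ^ c` at the point `(t, x) = (y 0, y 1)` of the affine
plane over `L`. -/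
noncomputable def value (L : Type) [Field L] [Algebra κ L] (f h : κ[X]) (b c : ℕ)
    (y : Fin 2 → L) : L :=
  (y 1 - aeval (y 0) h) ^ b * (aeval (y 1) f) ^ c

/-- The number of points over `L` of the open set `U` of the plane where the function is not
zero. -/
noncomputable def openCount (L : Type) [Field L] [Algebra κ L] (f h : κ[X]) (b c : ℕ) : ℕ :=
  Set.ncard {y : Fin 2 → L | value L f h b c y ≠ 0}

/-- The number of points over `L` of `U` where the power of the function with exponent
`(|L| - 1) / N` is `z ^ i`. -/
noncomputable def fixCount (L : Type) [Field L] [Fintype L] [Algebra κ L] (f h : κ[X])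
    (b c N : ℕ) (z : κ) (i : ℕ) : ℕ :=
  Set.ncard {y : Fin 2 → L | value L f h b c y ≠ 0 ∧
    (value L f h b c y) ^ ((Fintype.card L - 1) / N) = algebraMap κ L z ^ i}

/-- The polynomial `f(h(t))` is irreducible of degree not divisible by `p`, and the exponents are not
divisible by `p`. -/
structure IsAdmissible (p : ℕ) (f h : κ[X]) (b c : ℕ) : Prop where
  irreducible : Irreducible (f.comp h)
  degree : ¬ p ∣ f.natDegree * h.natDegree
  exponentH : ¬ p ∣ b
  exponentF : ¬ p ∣ c

/-- `M` is the sum of the `H²_c(U, L_χ)` over the nontrivial characters `χ` of order dividing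
`p ^ s`: the part of the cohomology with compact supports of the covering `v ^ (p ^ s) = value` of `U`
without invariants of the covering group, with the Frobenius `ΦM` and the automorphism `g` of order
`p ^ s`. -/
structure IsOpenPart (p s : ℕ) (z : κ) (f h : κ[X]) (b c : ℕ) {E M : Type}
    [Field E] [AddCommGroup M] [Module E M] (ΦM g : Module.End E M) : Prop where
  commute : Commute ΦM g
  order : g ^ p ^ s = 1
  noInvariants : ∀ v, g v = v → v = 0
  /-- the covering has `p ^ s fixCount` fixed points of the composition of the Frobenius over `L` and
  `g ^ i`, and `openCount` is the contribution of the trivial character -/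
  lefschetz : ∀ (L : Type) [Field L] [Fintype L] [Algebra κ L] (i : ℕ),
    LinearMap.trace E M (ΦM ^ Module.finrank κ L * g ^ i) =
      (p : E) ^ s * (fixCount L f h b c (p ^ s) z i : E) - (openCount L f h b c : E)
  /-- the dimension of `H²_c(U, L_χ)` is the Euler characteristic of `U` -/
  dimension : ∀ ω : E, ω ≠ 1 → ω ^ p ^ s = 1 → Module.finrank E (g.eigenspace ω) +
    f.natDegree = f.natDegree * h.natDegree

theorem value_eq (L : Type) [Field L] [Algebra κ L] (f h : κ[X]) (b c : ℕ)
    (y : Fin 2 → L) : Pool.Agent.TH943.IP.GG L (fun _ : Fin 1 => h) f (fun _ => b) c y =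
      value L f h b c y := by
  unfold Pool.Agent.TH943.IP.GG value
  rw [Fin.prod_univ_one]
  have e1 : (Fin.last 1 : Fin 2) = 1 := rfl
  have e2 : (0 : Fin 1).succ = 1 := rfl
  have e3 : (0 : Fin 1).castSucc = 0 := rfl
  rw [e1, e2, e3]
  ring

end reduction

section selmer

variable {k : Type} [Field k]

/-- `H` is `H¹` of the projective line over the algebraic closure of `k` with coefficients in the
direct image of the Tate module of the Jacobian, with the action `ρ` of the Galois group of `k`. It is
the sum of the image of `M` and of the span `N` of the classes of the divisors of degree zero at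
infinity. The element `φ` is a geometric Frobenius element at the closed point, `q` the number of
elements of its residue field. -/
structure IsCohomology (q : ℕ) {E M H : Type} [Field E] [AddCommGroup M] [Module E M]
    [AddCommGroup H] [Module E H] (ΦM : Module.End E M)
    (ρ : Representation E Gal(AlgebraicClosure k/k) H) (φ : Gal(AlgebraicClosure k/k))
    (π : M →ₗ[E] H) (N : Submodule E H) : Prop where
  frobenius : ∀ x, π (ΦM x) = (q : E) • ρ φ (π x)
  stable : ∀ σ, ∀ w ∈ N, ρ σ w ∈ N
  sum : LinearMap.range π ⊔ N = ⊤

/-- The extension `k'` has a closed point over the given one of residue degree `r`: a Frobenius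
element `ψ` of this point acts on the unramified representation `H` as a conjugate of `φ ^ r`. -/
def HasPoint {E H : Type} [Field E] [AddCommGroup H] [Module E H]
    (ρ : Representation E Gal(AlgebraicClosure k/k) H) (φ : Gal(AlgebraicClosure k/k))
    (k' : IntermediateField k (AlgebraicClosure k)) (r : ℕ) : Prop :=
  ∃ σ : Gal(AlgebraicClosure k/k), ∃ ψ ∈ k'.fixingSubgroup,
    ∀ w, ρ ψ w = ρ (σ * φ ^ r * σ⁻¹) w

/-- `A` and `S` are the images of `J(k'(t)) ⊗ E` and of `Sel(J, ℤ_ℓ) ⊗ E` in `H`: the elements of the
Selmer group are invariant, and the invariant elements of `N` are in `A`. -/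
structure IsSelmer {E H : Type} [Field E] [AddCommGroup H] [Module E H]
    (ρ : Representation E Gal(AlgebraicClosure k/k) H) (N : Submodule E H)
    (k' : IntermediateField k (AlgebraicClosure k)) (A S : Submodule E H) : Prop where
  mordellWeil : A ≤ S
  invariant : ∀ v ∈ S, ∀ σ ∈ k'.fixingSubgroup, ρ σ v = v
  infinity : ∀ v ∈ N, (∀ σ ∈ k'.fixingSubgroup, ρ σ v = v) → v ∈ A

end selmer

/-- **The Selmer group conjecture over `k(t)` for finitely generated fields `k` with a full cycle.**

Let `p` be a prime, `k` ANY finitely generated field (for instance a number field, or a function field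
in any number of variables over it) and `X` the smooth projective curve over `k(t)` with the equation
`v ^ (p ^ s) = (x - h(t)) ^ b f(x) ^ c`, `s ≥ 1`, where `f`, `h` are polynomials over `k` with `f(h(t))` of
degree not divisible by `p`, `n = deg f`, `m = deg h`, and `b`, `c` are positive integers prime to `p`; `J`
is its Jacobian. Its dimension is not bounded. Let there be a closed point of a model of `k` (a
normal integral scheme of finite type over the integers), with residue field `κ` with `q ≡ 1` modulo
`p ^ s` elements, where `f` and `h` are integral with reductions of the same degrees, and the reduction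
of `f(h(t))` is irreducible over `κ`. By Chebotarev's theorem there are such points, if `k` is infinite,
if and only if the Galois group of `f(h(t))` over `k(ζ)`, `ζ` a primitive root of unity of order
`p ^ s`, contains a cycle of length `n m` (so for almost all `f` and `h` of given degrees); in
characteristic zero there are then such points with infinitely many residue characteristics.

Notation. `U` is the open set `(x - h(t)) f(x) ≠ 0` of the plane over a neighbourhood of the point, `L_χ`
the sheaves of rank one of the covering, for the nontrivial characters `χ` of order dividing `p ^ s`, `ℓ`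
a prime different from the characteristic of `κ`, `E` an algebraic closure of the field of `ℓ`-adic
numbers. The divisor `(x - h(t)) f(x) = 0` has relative normal crossings, as the reduction of `f(h(t))`
is separable, and the curve `x = h(t)` can be separated from infinity by `m` blowing ups in a
uniform way; so the `H²_c(U, L_χ)` over the algebraic closures of `k` and `κ` are isomorphic and
unramified at the point. They are zero in the other degrees (`U` is affine and smooth; and one
integrates first over `t`). So `IsOpenPart` holds for the sum `M` of these groups over the algebraic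
closure of `κ`, by the Grothendieck-Lefschetz formula. Let `Y` be a smooth projective surface over
the algebraic closure of `k`, with a morphism to the line with the coordinate `t` with generic fibre
`X`, which contains the covering `U'` of `U`; and `V` the part of `H²(Y)`, with twist one, of the
nontrivial characters. The image of `M` in `V` is the orthogonal complement of the span `B` of the
classes of the boundary curves; as `U'` is affine, the boundary supports a divisor of positive
self-intersection, so that `V` is the sum of `B` and of the image of `M` (Hodge index theorem). The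
space `H = H¹(P¹, j_* V_ℓ(J)) ⊗ E` is the quotient of `V` by the part of nontrivial characters of the span
of the vertical curves (Leray). The horizontal boundary curves are those over `x = h(t)` and
`f(x) = 0`, invariant under the covering group, and those given by the points at infinity of `X`. So
`IsCohomology` holds, `N` being the image in `H` of the divisors of degree zero at infinity; and `H` is
unramified at the given point, because `M` and the points at infinity are.

Let `k'` be a finite extension of `k`, `K' = k'(t)`. For the elements of `Sel(J, ℤ_ℓ) ⊗ E` over `K'` the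
restriction to the inertia group at each closed point is zero (the `ℓ`-adic completion of the group
of points over the maximal unramified extension is finite), and the Tate module has no geometric
invariants (as `H³_c(U, L_χ) = 0`); so `Sel(J, ℤ_ℓ) ⊗ E` is a subspace of the invariants of `H` under the
Galois group of `k'` (Hochschild-Serre). The invariants of `N` are the classes of the divisors of
degree zero over `K'` at infinity, by averaging. So `IsSelmer` holds. `HasPoint` holds for all
extensions `k'` with a closed point over the given one with residue degree `r`.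

Theorem: if `r` is prime to `m`, then `J(K') ⊗ E = Sel(J, ℤ_ℓ) ⊗ E`, and this space is spanned by the
classes of the divisors of degree zero at infinity.

Consequence: as `T_ℓ Sha(J)` is torsion free, it is zero, and `J(K') ⊗ ℤ_ℓ → Sel(J, ℤ_ℓ)` is an
isomorphism, for all `ℓ` different from the characteristic of `κ`; for all `ℓ` different from the
characteristic of `k` if the Galois group of `f(h(t))` over `k'(ζ)` contains a full cycle. The rank of
`J(K')` is less than the number of Galois orbits of points at infinity of `X`; so `J(K')` is finite if
`p` does not divide `b + c n`. -/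
theorem result (p s : ℕ) (hp : p.Prime) (hs : 1 ≤ s) (κ : Type) [Field κ] [Fintype κ] (z : κ)
    (hz : IsPrimitiveRoot z (p ^ s)) (f h : κ[X]) (b c : ℕ) (hadm : IsAdmissible p f h b c)
    (k : Type) [Field k] (E M H : Type) [Field E] [CharZero E] [IsAlgClosed E]
    [AddCommGroup M] [Module E M] [FiniteDimensional E M] [AddCommGroup H] [Module E H]
    (ΦM g : Module.End E M) (hM : IsOpenPart p s z f h b c ΦM g)
    (ρ : Representation E Gal(AlgebraicClosure k/k) H) (φ : Gal(AlgebraicClosure k/k))
    (π : M →ₗ[E] H) (N : Submodule E H) (hH : IsCohomology (Fintype.card κ) ΦM ρ φ π N)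
    (k' : IntermediateField k (AlgebraicClosure k)) (r : ℕ)
    (hr : Nat.Coprime h.natDegree r) (hk' : HasPoint ρ φ k' r) (A S : Submodule E H)
    (hS : IsSelmer ρ N k' A S) : A = S ∧ S ≤ N := by
  have hcmp : Pool.Agent.TH943.IP.cmp 1 (fun _ : Fin 1 => h) f = f.comp h := rfl
  have hq0 : (Fintype.card κ : E) ≠ 0 := by exact_mod_cast Fintype.card_ne_zero
  -- the eigenvalues
  obtain ⟨-, heig⟩ := Pool.Agent.TH943.TP.eig_main hp hs κ hz (r := 0) (fun _ : Fin 1 => h) f
    (b := fun _ => b) (c := c)
    (fun _ h0 => hadm.exponentH (by rw [h0]; exact dvd_zero p))
    (fun h0 => hadm.exponentF (by rw [h0]; exact dvd_zero p))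
    (by rw [hcmp]; exact hadm.irreducible)
    (by rw [hcmp, natDegree_comp]; exact hadm.degree) ΦM g hM.commute hM.order hM.noInvariants
    (by
      intro L _ _ _ i
      simp only [value_eq]
      have h1 := hM.lefschetz L i
      unfold fixCount openCount at h1
      rw [← h1]
      norm_num)
    (by
      intro ω hω1 hω
      have h1 := hM.dimension ω hω1 hω
      rw [hcmp, natDegree_comp]
      exact h1)
  rw [hcmp, natDegree_comp] at heig
  have hno : ∀ x : M, (ΦM ^ r) x = (Fintype.card κ : E) ^ r • x → x = 0 := fun x hx =>
    Pool.Agent.TH943.TP.no_tate hp (q := Fintype.card κ)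
      (fun k _ _ => Pool.Agent.W528.HS.card_eq_one hp hs hz k) (K := f.natDegree)
      (m := h.natDegree) ΦM heig hr hx
  have h3 : ∀ (l : ℕ) (x : M), π ((ΦM ^ l) x) = (Fintype.card κ : E) ^ l • ρ (φ ^ l) (π x) := by
    intro l x
    induction l with
    | zero => rw [pow_zero, pow_zero, pow_zero, one_smul, map_one, Module.End.one_apply,
        Module.End.one_apply]
    | succ l ih =>
      rw [pow_succ', Module.End.mul_apply, hH.frobenius, ih, map_smul, smul_smul, ← pow_succ',
        ← Module.End.mul_apply, ← map_mul, ← pow_succ']
  -- the fixed vectors of a power of Frobenius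
  have hfix : ∀ u : H, ρ (φ ^ r) u = u → u ∈ N := by
    intro u hu
    obtain ⟨w, hw, y, hy, hwy⟩ := Submodule.mem_sup.1
      (hH.sum ▸ Submodule.mem_top : u ∈ LinearMap.range π ⊔ N)
    obtain ⟨x, rfl⟩ := LinearMap.mem_range.1 hw
    set T : Module.End E M := ΦM ^ r - (Fintype.card κ : E) ^ r • (1 : Module.End E M) with hT
    have hTπ : ∀ x, π (T x) = (Fintype.card κ : E) ^ r • (ρ (φ ^ r) (π x) - π x) := by
      intro x
      rw [hT, LinearMap.sub_apply, LinearMap.smul_apply, Module.End.one_apply, map_sub, map_smul,
        h3, smul_sub]
    have hTN : ∀ x ∈ N.comap π, T x ∈ N.comap π := by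
      intro x hx
      rw [Submodule.mem_comap] at hx ⊢
      rw [hTπ]
      exact Submodule.smul_mem _ _ (Submodule.sub_mem _ (hH.stable _ _ hx) hx)
    have hinj : Function.Injective T := by
      rw [← LinearMap.ker_eq_bot, LinearMap.ker_eq_bot']
      intro x hx
      apply hno
      rw [hT, LinearMap.sub_apply, LinearMap.smul_apply, Module.End.one_apply, sub_eq_zero] at hx
      exact hx
    have hinj' : Function.Injective (T.restrict hTN) := by
      intro a c hac
      exact Subtype.ext (hinj (congrArg Subtype.val hac))
    have hsurj := LinearMap.injective_iff_surjective.1 hinj'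
    have hx : T x ∈ N.comap π := by
      rw [Submodule.mem_comap, hTπ]
      refine Submodule.smul_mem _ _ ?_
      have h4 : ρ (φ ^ r) (π x) - π x = y - ρ (φ ^ r) y := by
        rw [← hwy, map_add] at hu
        rw [sub_eq_sub_iff_add_eq_add, hu, add_comm]
      rw [h4]
      exact Submodule.sub_mem _ hy (hH.stable _ _ hy)
    obtain ⟨x', hx'⟩ := hsurj ⟨T x, hx⟩
    have h5 : x'.1 = x := hinj (congrArg Subtype.val hx')
    rw [← hwy, ← h5]
    exact Submodule.add_mem _ x'.2 hy
  have hSN : S ≤ N := by
    intro v hv
    obtain ⟨σ, ψ, hψ, hconj⟩ := hk'
    have h1 : ρ (σ * φ ^ r * σ⁻¹) v = v := by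
      rw [← hconj]
      exact hS.invariant v hv ψ hψ
    have h2 : ρ (φ ^ r) (ρ σ⁻¹ v) = ρ σ⁻¹ v := by
      have h4 := congrArg (ρ σ⁻¹) h1
      rw [← Module.End.mul_apply, ← map_mul] at h4
      rw [← Module.End.mul_apply, ← map_mul, ← h4]
      congr 2
      group
    have h5 := hH.stable σ _ (hfix _ h2)
    rw [← Module.End.mul_apply, ← map_mul, mul_inv_cancel, map_one, Module.End.one_apply] at h5
    exact h5
  exact ⟨le_antisymm hS.mordellWeil fun v hv =>
    hS.infinity v (hSN hv) fun σ hσ => hS.invariant v hv σ hσ, hSN⟩

end Pool.Agent.Results.MP_1bdb59_nt.FinitelyGeneratedFields
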