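import Pool.Agent.TH180.HG.Fin
import Pool.Agent.TH180.RT.Mom

/-!
# Hyperelliptic Jacobians over `k(t)` of large Selmer corank are superexponentially rare

Let `k` be a finite field with `q` elements, `q` odd, and `g ≥ 1`. We consider all hyperelliptic curves
`X : y ^ 2 = x ^ (2 g + 1) + c_{2 g}(t) x ^ (2 g) + ... + c_0(t)` over `K = k(t)` with
`deg c_i ≤ 2 (2 g + 1 - i) d`, and the order of vanishing of the `L`-function of the Jacobian at
`T = 1 / q`, which bounds the rank of `Sel(J_X, Z_l)` for all `l`.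
-/

set_option autoImplicit false
set_option linter.all false
set_option maxHeartbeats 1000000

open Polynomial

namespace Pool.Agent.Results.MP_1bdb59_nt.HyperellipticTails

section defs

/-- The number of solutions of `y ^ 2 = x ^ n + c_{n-1} x ^ (n-1) + ... + c_0` in a ring. -/
noncomputable def affinePoints (R : Type) [CommRing R] {n : ℕ} (c : Fin n → R) : ℕ :=
  Nat.card {z : R × R // z.2 ^ 2 = z.1 ^ n + ∑ i : Fin n, c i * z.1 ^ (i : ℕ)}

variable {k : Type} [Field k]

/-- The Euler factors `∏_i (1 - α P i T ^ (deg P))` at the primes `P` of `k[t]` and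
`∏_i (1 - αinf i T)` at infinity (some of the numbers may be zero) are admissible for the Jacobian of
`y ^ 2 = x ^ (2 g + 1) + c_{2 g}(t) x ^ (2 g) + ... + c_0(t)`: there is a set `bad` of primes of total
degree at most `4 g (2 g + 1) d`, for all other primes the trace `∑_i α P i` is
`q_P - (number of affine points modulo P)`, where `q_P = q ^ (deg P)`, and at all places the numbers
have absolute value at most `q_P ^ (1 / 2)`. -/
def EulerFactors {g : ℕ} (d : ℕ) (c : Fin (2 * g + 1) → k[X]) (bad : Finset k[X])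
    (α : k[X] → Fin (2 * g) → ℂ) (αinf : Fin (2 * g) → ℂ) : Prop :=
  ∑ P ∈ bad, P.natDegree ≤ 4 * g * (2 * g + 1) * d ∧
  (∀ P : k[X], P.Monic → Irreducible P →
    (∀ i, ‖α P i‖ ≤ √(Nat.card k : ℝ) ^ P.natDegree) ∧
    (P ∉ bad → ∑ i, α P i = (((Nat.card k : ℤ) ^ P.natDegree -
      affinePoints (AdjoinRoot P) (fun i => AdjoinRoot.mk P (c i)) : ℤ) : ℂ))) ∧
  ∀ i, ‖αinf i‖ ≤ √(Nat.card k : ℝ)

open Classical in
/-- The number `S_m` in `L(T) = exp (∑ S_m T ^ m / m)`, the product of the inverses of the Euler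
factors: the sum over the places `v` with `deg v ∣ m` of `deg v ∑_i α_{v,i} ^ (m / deg v)`. -/
noncomputable def logCoeff {g : ℕ} (α : k[X] → Fin (2 * g) → ℂ) (αinf : Fin (2 * g) → ℂ)
    (m : ℕ) : ℂ :=
  ∑ i, αinf i ^ m + ∑ᶠ P : k[X], if P.Monic ∧ Irreducible P ∧ P.natDegree ∣ m then
    (P.natDegree : ℂ) * ∑ i, α P i ^ (m / P.natDegree) else 0

/-- `L(T) = ∏ (1 - q β_i T)` has degree `N ≤ 4 g (2 g + 1) d` and all `β_i` have absolute value
one. -/
def IsSpectrum {g : ℕ} (d : ℕ) (α : k[X] → Fin (2 * g) → ℂ) (αinf : Fin (2 * g) → ℂ) {N : ℕ}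
    (β : Fin N → ℂ) : Prop :=
  N ≤ 4 * g * (2 * g + 1) * d ∧ (∀ i, ‖β i‖ = 1) ∧
    ∀ m : ℕ, 0 < m → logCoeff α αinf m = -((Nat.card k : ℂ) ^ m * ∑ i, β i ^ m)

open Classical in
/-- `L(T)`, formed with some admissible Euler factors, satisfies the Weil conjectures and vanishes to
order at least `R` at `T = 1 / q`. -/
def OrderAtLeast {g : ℕ} (d : ℕ) (c : Fin (2 * g + 1) → k[X]) (R : ℕ) : Prop :=
  ∃ (bad : Finset k[X]) (α : k[X] → Fin (2 * g) → ℂ) (αinf : Fin (2 * g) → ℂ) (N : ℕ)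
    (β : Fin N → ℂ), EulerFactors d c bad α αinf ∧ IsSpectrum d α αinf β ∧
    R ≤ (Finset.univ.filter fun i => β i = 1).card

/-- The family: the tuples `(c_0, ..., c_{2 g})` of polynomials with `deg c_i ≤ 2 (2 g + 1 - i) d`. -/
def Family (k : Type) [Field k] (g d : ℕ) : Set (Fin (2 * g + 1) → k[X]) :=
  {c | ∀ i, (c i).natDegree ≤ 2 * (2 * g + 1 - (i : ℕ)) * d}

/-- The proportion of the members of the family with the property `p` is at most `δ`. -/
def Proportion (g d : ℕ) (p : (Fin (2 * g + 1) → k[X]) → Prop) (δ : ℝ) : Prop :=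
  ({c ∈ Family k g d | p c}.ncard : ℝ) ≤ δ * (Family k g d).ncard

/-- Whenever `r` is positive, `L(T)` exists as a polynomial and `r` is at most its order of vanishing
at `T = 1 / q`. -/
def AtMostOrder (g d : ℕ) (r : (Fin (2 * g + 1) → k[X]) → ℕ) : Prop :=
  ∀ c ∈ Family k g d, 0 < r c → OrderAtLeast d c (r c)

end defs

section proof

open Pool.Agent.TH180.HG
open Pool.Agent.TH180.RT (tl tl_nonneg cst exp_moment mem_of_natDegree natDegree_of_mem)

variable {k : Type} [Field k]

theorem big_iff {g : ℕ} (d R : ℕ) (c : Fin (2 * g + 1) → k[X]) :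
    OrderAtLeast d c R ↔ Big d R c := by
  unfold OrderAtLeast Big IsSpectrum
  constructor
  · rintro ⟨B, α, α', N, β, h0, ⟨h1, h2, h3⟩, h4⟩
    exact ⟨B, α, α', N, β, h0, h1, h2, h3, h4⟩
  · rintro ⟨B, α, α', N, β, h0, h1, h2, h3, h4⟩
    exact ⟨B, α, α', N, β, h0, ⟨h1, h2, h3⟩, h4⟩

theorem mono {g d R R' : ℕ} {c : Fin (2 * g + 1) → k[X]} (h : OrderAtLeast d c R') (hR : R ≤ R') :
    OrderAtLeast d c R := by
  obtain ⟨B, α, α', N, β, h1, h2, h3⟩ := h
  exact ⟨B, α, α', N, β, h1, h2, hR.trans h3⟩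

theorem co_inj {n : ℕ} (D : Fin n → ℕ) : Function.Injective (co : Om k D → Fin n → k[X]) := by
  intro x y h
  funext i
  exact Subtype.ext (congrFun h i)

open Classical in
theorem ncard_eq [Fintype k] [DecidableEq k] (g d : ℕ) (p : (Fin (2 * g + 1) → k[X]) → Prop) :
    {c ∈ Family k g d | p c}.ncard =
      (Finset.univ.filter fun ω : Om k (dg g d) => p (co ω)).card := by
  set T : Finset (Om k (dg g d)) := Finset.univ.filter fun ω => p (co ω) with hT
  have h : {c ∈ Family k g d | p c} =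
      (co : Om k (dg g d) → Fin (2 * g + 1) → k[X]) '' (T : Set (Om k (dg g d))) := by
    ext c
    constructor
    · rintro ⟨h1, h2⟩
      refine ⟨fun i => ⟨c i, mem_of_natDegree (h1 i)⟩, ?_, rfl⟩
      rw [Finset.mem_coe, hT, Finset.mem_filter]
      exact ⟨Finset.mem_univ _, h2⟩
    · rintro ⟨ω, hω, rfl⟩
      rw [Finset.mem_coe, hT, Finset.mem_filter] at hω
      exact ⟨fun i => natDegree_of_mem (ω i).2, hω.2⟩
  rw [h, Set.ncard_image_of_injective _ (co_inj _), Set.ncard_coe_finset]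

open Classical in
theorem ncard_family [Fintype k] [DecidableEq k] (g d : ℕ) :
    (Family k g d).ncard = Fintype.card (Om k (dg g d)) := by
  have h := ncard_eq (k := k) g d (fun _ => True)
  have e : {c ∈ Family k g d | True} = Family k g d := by
    ext c
    simp
  rw [e] at h
  rw [h]
  simp

theorem fin_family [Finite k] (g d : ℕ) : (Family k g d).Finite := by
  classical
  let _ : Fintype k := Fintype.ofFinite k
  refine Set.Finite.subset (Set.finite_range (co : Om k (dg g d) → _)) ?_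
  intro c hc
  exact ⟨fun i => ⟨c i, mem_of_natDegree (hc i)⟩, rfl⟩

theorem prop_order [Finite k] (h2 : (2 : k) ≠ 0) {g : ℕ} (hg : 0 < g) (d : ℕ) {R : ℕ} (hR : 0 < R) :
    Proportion g d (fun c : Fin (2 * g + 1) → k[X] => OrderAtLeast d c R)
      ((3 / (R : ℝ)) ^ (R / (12 * g * (2 * g + 1) * (8 * g + 1)))) := by
  classical
  let _ : Fintype k := Fintype.ofFinite k
  have h := tail h2 hg d R hR
  unfold Proportion
  rw [ncard_eq, ncard_family]
  refine le_trans (le_of_eq ?_) h
  congr 1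
  congr 1
  ext ω
  simp only [Finset.mem_filter, Finset.mem_univ, true_and]
  exact big_iff _ _ _

theorem prop_mono [Finite k] {g d : ℕ} {p p' : (Fin (2 * g + 1) → k[X]) → Prop} {δ : ℝ}
    (h : Proportion g d p δ) (hp : ∀ c ∈ Family k g d, p' c → p c) : Proportion g d p' δ := by
  unfold Proportion at h ⊢
  refine le_trans ?_ h
  have h1 : {c ∈ Family k g d | p' c} ⊆ {c ∈ Family k g d | p c} :=
    fun c hc => ⟨hc.1, hp _ hc.1 hc.2⟩
  exact_mod_cast Set.ncard_le_ncard h1 ((fin_family g d).subset fun x hx => hx.1)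

theorem prop_r [Finite k] (h2 : (2 : k) ≠ 0) {g : ℕ} (hg : 0 < g) (d : ℕ)
    {r : (Fin (2 * g + 1) → k[X]) → ℕ} (hr : AtMostOrder g d r) {R : ℕ} (hR : 0 < R) :
    Proportion g d (fun c => R ≤ r c)
      ((3 / (R : ℝ)) ^ (R / (12 * g * (2 * g + 1) * (8 * g + 1)))) :=
  prop_mono (prop_order h2 hg d hR) fun c hc h => mono (hr c hc (hR.trans_le h)) h

theorem moments [Finite k] (h2 : (2 : k) ≠ 0) {g : ℕ} (hg : 0 < g) (d : ℕ)
    {r : (Fin (2 * g + 1) → k[X]) → ℕ} (hr : AtMostOrder g d r) {s : ℝ} (hs : 0 ≤ s) :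
    ∑ᶠ c ∈ Family k g d, s ^ r c ≤
      cst (12 * g * (2 * g + 1) * (8 * g + 1)) 1 s * (Family k g d).ncard := by
  classical
  rw [finsum_mem_eq_finite_toFinset_sum _ (fin_family g d),
    Set.ncard_eq_toFinset_card _ (fin_family g d)]
  refine exp_moment (fin_family g d).toFinset r (by positivity) (by norm_num) ?_ hs
  intro R hR
  have h3 := prop_r h2 hg d hr hR
  unfold Proportion at h3
  rw [Set.ncard_eq_toFinset_card _ (fin_family g d)] at h3
  have h4 : (((fin_family (k := k) g d).toFinset.filter fun c => R ≤ r c).card : ℝ) =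
      ({c ∈ Family k g d | R ≤ r c}.ncard : ℝ) := by
    congr 1
    rw [← Set.ncard_coe_finset]
    congr 1
    ext x
    simp
  rw [h4]
  refine h3.trans ?_
  apply mul_le_mul_of_nonneg_right _ (Nat.cast_nonneg _)
  rw [one_mul]
  unfold tl
  apply pow_le_pow_left₀ (by positivity)
  exact div_le_div_of_nonneg_right (by norm_num) (Nat.cast_nonneg _)

end proof

/-- **Main theorem.** Let `g ≥ 1`, `M = 12 g (2 g + 1) (8 g + 1)`, let `k` be a finite field of odd
characteristic with `q` elements, and `d ≥ 0`. Among all curves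
`y ^ 2 = x ^ (2 g + 1) + c_{2 g}(t) x ^ (2 g) + ... + c_0(t)` with `deg c_i ≤ 2 (2 g + 1 - i) d`, the
proportion of those for which the `L`-function of the Jacobian over `k(t)` is a polynomial satisfying
the Weil conjectures and vanishes to order at least `R` at `T = 1 / q` is at most
`(3 / R) ^ ⌊R / M⌋`, for all `R ≥ 1`. If `r` is any function which is at most this order, the same
holds for the curves with `r ≥ R`, and the average of `s ^ r` is at most `C(g, s)`, for all `s ≥ 0`,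
with `C(g, s)` independent of `k` and `d`. -/
theorem result : ∃ C : ℕ → ℝ → ℝ, ∀ (g : ℕ), 0 < g → ∀ (k : Type) [Field k] [Finite k],
    (2 : k) ≠ 0 → ∀ d : ℕ,
    (∀ R : ℕ, 0 < R → Proportion g d (fun c : Fin (2 * g + 1) → k[X] => OrderAtLeast d c R)
      ((3 / (R : ℝ)) ^ (R / (12 * g * (2 * g + 1) * (8 * g + 1))))) ∧
    ∀ r : (Fin (2 * g + 1) → k[X]) → ℕ, AtMostOrder g d r →
      (∀ R : ℕ, 0 < R → Proportion g d (fun c => R ≤ r c)
        ((3 / (R : ℝ)) ^ (R / (12 * g * (2 * g + 1) * (8 * g + 1))))) ∧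
      ∀ s : ℝ, 0 ≤ s → ∑ᶠ c ∈ Family k g d, s ^ r c ≤ C g s * (Family k g d).ncard := by
  refine ⟨fun g s => Pool.Agent.TH180.RT.cst (12 * g * (2 * g + 1) * (8 * g + 1)) 1 s,
    fun g hg k _ _ h2 d => ⟨fun R hR => prop_order h2 hg d hR, fun r hr =>
      ⟨fun R hR => prop_r h2 hg d hr hR, fun s hs => moments h2 hg d hr hs⟩⟩⟩

end Pool.Agent.Results.MP_1bdb59_nt.HyperellipticTails
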