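import Pool.Agent.TH639.SK.Bound

/-!
An upper bound for the orders of vanishing of the `χ`-part of the `L`-function of the Jacobian of the
curve `y ^ N = f(x)`, `N = ℓ ^ a`, over a function field, in terms of the zeta functions modulo `ℓ` of
the fields generated by the roots of `f`.
-/

set_option autoImplicit false
set_option linter.all false
set_option maxHeartbeats 4000000

open Polynomial Pool.Agent.W343.BSD Pool.Agent.W313.Hyp Pool.Agent.TH639.SK

namespace Pool.Agent.Results.MP_1bdb59_nt.PrimePowerSuperelliptic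

/-- The multiplicity of the zero one of the reduction of `P` modulo `ℓ`. -/
noncomputable def multOne (ℓ : ℕ) (P : ℤ[X]) : ℕ :=
  (P.map (Int.castRingHom (ZMod ℓ))).rootMultiplicity 1

/-- The greatest power of `ℓ` dividing `n`. -/
def lPart (ℓ n : ℕ) : ℕ := ℓ ^ padicValNat ℓ n

/-- `f` is monic and separable, and `K[x] / (f)` is the product of the fields `L i = K(θ i)`. -/
def IsProductOf {K : Type} [Field K] (f : K[X]) {ι : Type} [Fintype ι] {L : ι → Type}
    [∀ i, Field (L i)] [∀ i, Algebra K (L i)] (θ : ∀ i, L i) : Prop :=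
  f.Monic ∧ f.Separable ∧ (∀ i, IntermediateField.adjoin K {θ i} = ⊤) ∧ ∏ i, minpoly K (θ i) = f

/-- `P` is the numerator of the zeta function of `F` and its value at `1` is the class number. -/
def IsNumerator (k F : Type) [Field k] [Field F] [Algebra k F] (P : ℤ[X]) : Prop :=
  S.IsZetaNum k F P ∧ P.eval 1 = S.classNumber k F

/-- The norm of an element of `R` to `k`. -/
noncomputable def normTo (k : Type) {R : Type} [Field k] [CommRing R] [Algebra k R] (x : R) : k :=
  Algebra.norm k x

section points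

variable {k F : Type} [Field k] [Field F] [Algebra k F] {A : Type} [CommRing A]

/-- The factor `1 - χ(N h(P)) T ^ n`, where `N h(P)` is the norm to `k` of the value of `h` at the
closed point `P`, and `χ(0) = 0`. -/
noncomputable def ptFactor (χ : MulChar k A) (h : F[X]) (P : ClosedPt F) (n : ℕ) : PowerSeries A :=
  1 - PowerSeries.C (χ (normTo k (AdjoinRoot.mk P.1 h))) * PowerSeries.X ^ n

/-- The sum of the `ℓ`-parts of `d * deg P` over the closed points `P` at which `h` vanishes. -/
noncomputable def zeroSum (ℓ d : ℕ) (h : F[X]) : ℕ :=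
  ∑ᶠ (P : ClosedPt F) (_ : P.1 ∣ h), lPart ℓ (d * P.1.natDegree)

end points

/-- The scheme `G = 0` in the affine line over the local ring `O` is regular at the closed points of
the special fibre. -/
def IsRegularDivisor {O : Type} [CommRing O] [IsLocalRing O] (G : O[X]) : Prop :=
  ∀ M : Ideal O[X], M.IsMaximal → (∀ c ∈ IsLocalRing.maximalIdeal O, C c ∈ M) → G ∉ M ^ 2

section defs

variable {k K : Type} [Field k] [Field K] [Algebra k K]

/-- The polynomial `g` has coefficients in the valuation ring at `v`, and the scheme `g = 0` in the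
affine line over this ring is regular at the closed points of the special fibre. -/
def IsRegular (v : FF.Place k K) (g : K[X]) : Prop :=
  ∃ G : v.O[X], G.map v.O.subtype = g ∧ IsRegularDivisor G

/-- At every place `v` outside `B` the model `y ^ N = u ^ (- N n) f(u ^ N x + r)`, where `n` is the
degree of `f`, `u = u v`, `r = r v`, has a regular branch divisor; outside the larger finite set `T` it
has good reduction. -/
structure IsModelData (N : ℕ) (f : K[X]) (B T : Finset (FF.Place k K))
    (u r : FF.Place k K → K) : Prop where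
  subset : B ⊆ T
  ne_zero : ∀ v ∉ B, u v ≠ 0
  regular : ∀ v ∉ B, IsRegular v (modelN N f (u v) (r v))
  good : ∀ v ∉ T, Squarefree (redPoly v (modelN N f (u v) (r v)))

variable {A : Type} [CommRing A]

/-- The residue field at `v` as an algebra over `k`: a constant goes to its residue class. -/
noncomputable instance resAlgebra (v : FF.Place k K) : Algebra k (S.Res v) :=
  ((IsLocalRing.residue v.O).comp
    ((algebraMap k K).codRestrict v.O fun c => v.reg_const c)).toAlgebra

/-- The factor `1 - χ(N g(P)) T ^ deg` at the closed point `P` over the place `v`, where `g` is the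
reduction of the model at `v`. -/
noncomputable def factorAt {B : Finset (FF.Place k K)} (χ : MulChar k A) (N : ℕ) (f : K[X])
    (u r : FF.Place k K → K) (z : PtOutside B) : PowerSeries A :=
  ptFactor χ (redPoly z.place (modelN N f (u z.place) (r z.place))) z.pt z.deg

/-- The `L`-function of the `χ`-part of the Jacobian of `y ^ N = f(x)` without the Euler factors at the
places in `B`: the product over the places `v` outside `B` and the closed points of the affine line
over the residue field of `v`. -/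
noncomputable def LOutside (χ : MulChar k A) (N : ℕ) (B : Finset (FF.Place k K)) (f : K[X])
    (u r : FF.Place k K → K) : PowerSeries A :=
  eulerProd (fun z : PtOutside B => z.deg) (factorAt χ N f u r)

/-- `LOutside` is a polynomial over `A` times the product of the `(1 - q ζ T) ^ (m ζ)`, for the elements
`ζ` of `Z`: it vanishes to order at least `m ζ` at `T = 1 / (q ζ)`. -/
def VanishesTo (χ : MulChar k A) (N : ℕ) (B : Finset (FF.Place k K)) (f : K[X])
    (u r : FF.Place k K → K) (Z : Finset A) (m : A → ℕ) : Prop :=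
  ∃ H : A[X], LOutside χ N B f u r =
    (((∏ ζ ∈ Z, (1 - C ((Nat.card k : A) * ζ) * X) ^ m ζ) * H : A[X]) : PowerSeries A)

/-- The sum of the `ℓ`-parts of the degrees of the places over `v` of the fields `L i`. -/
noncomputable def aboveTerm (ℓ : ℕ) {ι : Type} [Fintype ι] (L : ι → Type) [∀ i, Field (L i)]
    [∀ i, Algebra k (L i)] [∀ i, Algebra K (L i)] (v : FF.Place k K) : ℕ :=
  ∑ i, ∑ᶠ (w : FF.Place k (L i)) (_ : LiesOver w v), lPart ℓ (S.deg w)

/-- The sum of the `ℓ`-parts of the degrees of the closed points over `v` at which the reduction of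
`g` vanishes. -/
noncomputable def zeroTerm (ℓ : ℕ) (v : FF.Place k K) (g : K[X]) : ℕ :=
  zeroSum ℓ (S.deg v) (redPoly v g)

end defs

section bridge

theorem constDeg_eq_one {k K : Type} [Field k] [Field K] [Algebra k K]
    (h : ∀ x : K, IsAlgebraic k x → x ∈ (algebraMap k K).range) : constDeg k K = 1 := by
  unfold constDeg
  have h1 : algebraicClosure k K = ⊥ := by
    rw [eq_bot_iff]
    intro x hx
    obtain ⟨c, hc⟩ := h x (mem_algebraicClosure_iff.1 hx)
    rw [IntermediateField.mem_bot]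
    exact ⟨c, hc⟩
  rw [h1, IntermediateField.finrank_bot]

variable {k K : Type} [Field k] [Finite k] [Field K] [Algebra k K] [FF.IsFF k K] {A : Type}
  [CommRing A]

omit [Finite k] [FF.IsFF k K] in
theorem resAlgebra_eq (v : FF.Place k K) : resAlgebra v = FF.Place.instAlgebraRF v := by
  refine Algebra.algebra_ext _ _ fun c => ?_
  exact (v.red_of_reg (v.reg_const c)).symm

theorem LOutside_eq (χ : MulChar k A) (N : ℕ) (B : Finset (FF.Place k K)) (f : K[X])
    (u r : FF.Place k K → K) (h : ∀ v : FF.Place k K, Polynomial v.RF)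
    (hh : ∀ v, redPoly v (modelN N f (u v) (r v)) = h v) :
    LOutside χ N B f u r = LX χ B h := by
  have h1 := eulerProd_equiv (R := A) (ptEquiv B) (fun y => y.1.1.deg * y.2.1.natDegree)
    (pts_finite B) (fun y : (Σ v : {v : FF.Place k K // v ∉ B}, MI v.1.RF) =>
      Pool.Agent.TH639.SC.lf χ (h y.1.1) y.2.1 (y.1.1.deg * y.2.1.natDegree))
  unfold LX
  refine Eq.trans ?_ h1
  unfold LOutside
  have e1 : (fun z : PtOutside B => z.deg) = fun z => (ptEquiv B z).1.1.deg *
      (ptEquiv B z).2.1.natDegree := by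
    funext z
    show S.deg z.place * z.pt.1.natDegree = _
    rw [S.deg_eq]
    rfl
  have e2 : factorAt (B := B) χ N f u r = fun z => Pool.Agent.TH639.SC.lf χ
      (h (ptEquiv B z).1.1) (ptEquiv B z).2.1
      ((ptEquiv B z).1.1.deg * (ptEquiv B z).2.1.natDegree) := by
    funext z
    unfold factorAt
    rw [resAlgebra_eq]
    unfold ptFactor normTo Pool.Agent.TH639.SC.lf
    have h2 : z.deg = (ptEquiv B z).1.1.deg * (ptEquiv B z).2.1.natDegree := congrFun e1 z
    rw [h2, hh]
    rfl
  rw [e1, e2]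

variable {ι : Type} [Fintype ι] {L : ι → Type} [∀ i, Field (L i)] [∀ i, Algebra k (L i)]
  [∀ i, Algebra K (L i)] [∀ i, IsScalarTower k K (L i)]

theorem aboveTerm_eq (ℓ : ℕ) [∀ i, FF.IsFF k (L i)] {v : FF.Place k K}
    {S' : ∀ i, Finset (FF.Place k (L i))}
    {e d : (Σ i, FF.Place k (L i)) → ℕ} (D : FiberData v S' e d) :
    aboveTerm ℓ L v = ∑ i, ∑ w ∈ S' i, ℓ ^ padicValNat ℓ w.deg := by
  classical
  unfold aboveTerm
  refine Finset.sum_congr rfl fun i _ => ?_
  have h1 : ∀ w : FF.Place k (L i), LiesOver w v ↔ w ∈ S' i := fun w =>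
    ⟨fun ⟨e', he⟩ => D.mem i w e' he, fun hw => ⟨_, D.isOver i w hw⟩⟩
  simp only [h1, S.deg_eq]
  exact finsum_mem_coe_finset (fun w : FF.Place k (L i) => lPart ℓ w.deg) (S' i)

theorem zeroTerm_eq (ℓ : ℕ) (v : FF.Place k K) {g : K[X]} {h : v.RF[X]} (hg : redPoly v g = h)
    (h0 : h ≠ 0) :
    zeroTerm ℓ v g = ∑ P ∈ facs' v h, ℓ ^ padicValNat ℓ (v.deg * P.1.natDegree) := by
  classical
  have hfin : Finite v.RF := Pool.Agent.W313.Hyp.finite_RF v
  have h1 : ∀ P : MI v.RF, (P.1 ∣ h) = (P ∈ facs' v h) := fun P =>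
    propext (mem_facs h0 P).symm
  have h2 : zeroTerm ℓ v g =
      ∑ᶠ (P : MI v.RF) (_ : P.1 ∣ h), lPart ℓ (v.deg * P.1.natDegree) := by
    unfold zeroTerm zeroSum
    rw [hg, S.deg_eq]
    rfl
  rw [h2]
  have h3 : (fun P : MI v.RF => ∑ᶠ (_ : P.1 ∣ h), lPart ℓ (v.deg * P.1.natDegree)) =
      fun P : MI v.RF => ∑ᶠ (_ : P ∈ facs' v h), lPart ℓ (v.deg * P.1.natDegree) :=
    funext fun P => by rw [h1 P]
  rw [h3]
  exact finsum_mem_coe_finset (fun P : MI v.RF => lPart ℓ (v.deg * P.1.natDegree)) (facs' v h)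

end bridge

open Classical in
/-- Let `K` be the function field of a curve over the finite field `k` with `q` elements, `N = ℓ ^ a`
a prime power, `N ≠ 2`, and `χ` a character of `k` of exact order `N` (so `N` divides `q - 1`). Let `f`
be monic and separable of degree prime to `ℓ`, and `K[x] / (f)` the product of the fields `L i`. Let `J`
be the Jacobian of `y ^ N = f(x)` and `V` the part of its cohomology on which `μ_N` acts through `χ`.
At a place where the model `y ^ N = u ^ (- N n) f(u ^ N x + r)` has a regular branch divisor, this model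
is regular, and the product of the factors at the closed points over this place is the inverse of the
Euler factor of `V`. So `LOutside` is `L(V, T)` without the Euler factors at the places in `B`. These
are polynomials with zeros of weight at most one and do not matter at `T = 1 / (q ζ)`, and `LOutside` is
a polynomial when `J` has no constant part. We show that the sum of the orders of vanishing `m ζ` at the
points `1 / (q ζ)`, over the roots of unity `ζ` of order a power of `ℓ`, satisfies
`∑ m ζ + mu_K + 2 ∑ lPart (r i) + ∑_{v ∈ B} lPart (deg v) + ∑_{v ∈ T \ B} zeroTerm_v`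
`≤ 2 + ∑ mu_{L i} + ∑_{v ∈ T} aboveTerm_v`, where `r i` is the degree of the field of constants of
`L i` and `mu` is the multiplicity of the zero `1` modulo `ℓ` of the numerator of the zeta function;
`mu_{L i} = 0` if the class number of `L i` is prime to `ℓ`. Here `zeroTerm_v = aboveTerm_v` at the
places with a regular branch divisor. If the resulting bound for `∑ m ζ` is zero and `ℓ` is odd, the
same bound holds for all characters of order `ℓ, ..., ℓ ^ a`, so `J(K k')` is finite, and `T_p Sha` of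
`J` over `K k'` is zero for every prime `p` and every extension `k'` of `k` of degree a power of
`ℓ`. -/
theorem result (ℓ : ℕ) (hℓ : ℓ.Prime) (a : ℕ) (ha : a ≠ 0) (_h2 : ℓ ^ a ≠ 2) (k K : Type)
    [Field k] [Finite k] [Field K] [Algebra k K] (hK : IsCurveField k K) (A : Type) [CommRing A]
    [IsDomain A] [CharZero A] [Algebra.IsIntegral ℤ A] (χ : MulChar k A)
    (hχ : orderOf χ = ℓ ^ a) (f : K[X]) (_hn : ¬ ℓ ∣ f.natDegree) (ι : Type) [Fintype ι]
    (L : ι → Type) [∀ i, Field (L i)] [∀ i, Algebra k (L i)] [∀ i, Algebra K (L i)]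
    [∀ i, IsScalarTower k K (L i)] (θ : ∀ i, L i) (hθ : IsProductOf f θ)
    (B T : Finset (FF.Place k K)) (u r : FF.Place k K → K)
    (hBT : IsModelData (ℓ ^ a) f B T u r) :
    ∃ (PK : ℤ[X]) (PL : ι → ℤ[X]), IsNumerator k K PK ∧ (∀ i, IsNumerator k (L i) (PL i)) ∧
      ∀ Z : Finset A, (∀ ζ ∈ Z, ∃ j : ℕ, ζ ^ (ℓ ^ j) = 1) → ∀ m : A → ℕ,
        VanishesTo χ (ℓ ^ a) B f u r Z m →
        ∑ ζ ∈ Z, m ζ + multOne ℓ PK + 2 * ∑ i, lPart ℓ (constDeg k (L i)) +
            ∑ v ∈ B, lPart ℓ (S.deg v) +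
            ∑ v ∈ T \ B, zeroTerm ℓ v (modelN (ℓ ^ a) f (u v) (r v)) ≤
          2 + ∑ i, multOne ℓ (PL i) + ∑ v ∈ T, aboveTerm ℓ L v ∧
        ((∀ i, ¬ ℓ ∣ S.classNumber k (L i)) →
          ∑ ζ ∈ Z, m ζ + 2 * ∑ i, lPart ℓ (constDeg k (L i)) + ∑ v ∈ B, lPart ℓ (S.deg v) +
              ∑ v ∈ T \ B, zeroTerm ℓ v (modelN (ℓ ^ a) f (u v) (r v)) ≤
            2 + ∑ v ∈ T, aboveTerm ℓ L v) := by
  have hFF : FF.IsFF k K := ⟨hK.essFiniteType, hK.trdeg_eq_one⟩
  have hF : IsFam f θ := ⟨hθ.1, hθ.2.1, hθ.2.2.1, hθ.2.2.2⟩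
  have hfd := hF.fd
  have hFFL : ∀ i, FF.IsFF k (L i) := fun i => isFF_of_finite (K := K)
  obtain ⟨PK, hPK, hPK1⟩ := exists_num_rel k K
  choose PL hPL hPL1 using fun i => exists_num_rel k (L i)
  refine ⟨PK, PL, ⟨(S.isZetaNum_iff PK).2 hPK, hPK1.trans (by rw [S.classNumber_eq])⟩,
    fun i => ⟨(S.isZetaNum_iff _).2 (hPL i), (hPL1 i).trans (by rw [S.classNumber_eq])⟩,
    fun Z hZ m hm => ?_⟩
  obtain ⟨H, hH⟩ := hm
  have hdvd : ℓ ∣ Nat.card k - 1 := by
    obtain ⟨g, hg⟩ := IsCyclic.exists_generator (α := kˣ)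
    have h1 : χ ^ (Nat.card k - 1) = 1 := by
      have hk1 : 1 < Nat.card k := Finite.one_lt_card
      apply MulChar.ext
      intro a
      have := Fintype.ofFinite k
      rw [MulChar.pow_apply' χ (by omega), MulChar.one_apply a.isUnit, ← map_pow,
        Nat.card_eq_fintype_card, FiniteField.pow_card_sub_one_eq_one _ a.ne_zero, map_one]
    have h2 := orderOf_dvd_of_pow_eq_one h1
    rw [hχ] at h2
    exact (dvd_pow_self ℓ ha).trans h2
  have hχ1 : χ ^ (ℓ ^ a) = 1 := by
    rw [← hχ]
    exact pow_orderOf_eq_one χ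
  have hD := fun v : FF.Place k K => exists_fiberData (L := L) hF.fd hF.sep v
  choose S' e d D using hD
  set h : ∀ v : FF.Place k K, Polynomial v.RF :=
    fun v => redPoly v (modelN (ℓ ^ a) f (u v) (r v)) with hh
  have hreg : ∀ v, v ∉ B → ∀ i, v.Reg ((modelN (ℓ ^ a) f (u v) (r v)).coeff i) := by
    intro v hv i
    obtain ⟨G, hG, -⟩ := hBT.regular v hv
    rw [← hG, coeff_map]
    exact (G.coeff i).2
  have hlift : ∀ v, v ∉ B → ∃ F : v.O[X], F.map v.O.subtype = modelN (ℓ ^ a) f (u v) (r v) ∧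
      F.map v.resHom = h v := fun v hv => exists_lift v (hreg v hv)
  have hmonic : ∀ v, v ∉ B → (h v).Monic := by
    intro v hv
    obtain ⟨F, hF1, hF2⟩ := hlift v hv
    rw [← hF2]
    apply Monic.map
    apply monic_of_injective (f := v.O.subtype) Subtype.val_injective
    rw [hF1]
    exact monic_modelN (hBT.ne_zero v hv) hF.monic
  have h0 : ∀ v, v ∉ B → h v ≠ 0 := fun v hv => (hmonic v hv).ne_zero
  have hgood : ∀ (R : Type) [Field R], ∀ v, v ∉ T → ∀ φ : ℕ → PowerSeries R,
      ∏ i, ∏ w ∈ S' v i, φ w.deg = ∏ P ∈ facs' v (h v), φ (v.deg * P.1.natDegree) := by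
    intro R _ v hv φ
    have hvB : v ∉ B := fun hA => hv (hBT.subset hA)
    obtain ⟨F, hF1, hF2⟩ := hlift v hvB
    have hsc := scaleN (N := ℓ ^ a) hF (r := r v) (hBT.ne_zero v hvB)
    have hsq : Squarefree (F.map v.resHom) := by
      rw [hF2]
      exact hBT.good v hv
    rw [kd_prod hsc v hF1 hsq (D v) φ, hF2]
    rfl
  have hmain := Pool.Agent.TH639.SK.bound hℓ hdvd hχ1 hF hPK (constDeg_eq_one hK.algClosed) hPL D
    B T hBT.subset h h0 hgood Z (fun ζ => (Nat.card k : A) * ζ) (fun ζ hζ => by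
      obtain ⟨j, hj⟩ := hZ ζ hζ
      exact ⟨ℓ ^ j, j, by rw [mul_pow, hj, mul_one]⟩) m H (by
      rw [← LOutside_eq χ (ℓ ^ a) B f u r h (fun v => rfl)]; exact hH)
  have e1 : ∑ v ∈ B, lPart ℓ (S.deg v) = ∑ v ∈ B, ℓ ^ padicValNat ℓ v.deg :=
    Finset.sum_congr rfl fun v _ => by rw [S.deg_eq]; rfl
  have e2 : ∑ v ∈ T \ B, zeroTerm ℓ v (modelN (ℓ ^ a) f (u v) (r v)) =
      ∑ v ∈ T \ B, ∑ P ∈ facs' v (h v), ℓ ^ padicValNat ℓ (v.deg * P.1.natDegree) :=
    Finset.sum_congr rfl fun v hv => zeroTerm_eq ℓ v rfl (h0 v (Finset.mem_sdiff.1 hv).2)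
  have e3 : ∑ v ∈ T, aboveTerm ℓ L v = ∑ v ∈ T, ∑ i, ∑ w ∈ S' v i, ℓ ^ padicValNat ℓ w.deg :=
    Finset.sum_congr rfl fun v _ => aboveTerm_eq ℓ (D v)
  have e4 : 2 * ∑ i, lPart ℓ (constDeg k (L i)) =
      ∑ i, 2 * ℓ ^ padicValNat ℓ (constDeg k (L i)) := by
    rw [Finset.mul_sum]
    rfl
  have e5 : ∀ P, multOne ℓ P = Pool.Agent.TH639.SG.muL ℓ P := fun _ => rfl
  have e6 : ∑ i, multOne ℓ (PL i) = ∑ i, Pool.Agent.TH639.SG.muL ℓ (PL i) := rfl
  rw [e1, e2, e3, e4, e5, e6]
  refine ⟨by omega, fun hcl => ?_⟩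
  have hFp : Fact ℓ.Prime := ⟨hℓ⟩
  have h4 : ∑ i, Pool.Agent.TH639.SG.muL ℓ (PL i) = 0 := Finset.sum_eq_zero fun i _ =>
    Pool.Agent.TH639.SG.muL_eq_zero (by
      rw [hPL1 i, ← S.classNumber_eq]
      intro h
      exact hcl i (by exact_mod_cast h))
  rw [h4] at hmain
  omega

end Pool.Agent.Results.MP_1bdb59_nt.PrimePowerSuperelliptic
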