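import Mathlib
import Pool.Agent.TH115.GD.Defs
import Pool.Agent.TH115.GD.Defs3
import Pool.Agent.TH115.SK.Defs
import Pool.Agent.TH115.SN.Defs
import Pool.Agent.TH115.SN.Sha

/-!
# The 2-adic Selmer group of an elliptic curve over `k(t)` without points of order two

Let `k` be a field of characteristic different from 2 (for example finitely generated over its
prime field), `K = k(t)`, and let `E` be an elliptic curve over `K` without points of order 2 over
`K`. It has an equation `y² = f(x, t)` with

`f = x³ + a₂ x² + a₄ x + a₆`

over `k[t]`, separable over `K` and without roots in `K` (so that `f` is irreducible over `K`; it may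
be reducible over `k'(t)`, where `k'` is a separable closure of `k`). Let `C` be the curve
`f(x, t) = 0`, `N = K(θ)`, `f(θ) = 0`, its function field, and `R` the integral closure of `k[t]` in
`N`.

Let `D` be a nonzero polynomial over `k` (for example `D = 1`) and `E_D : D(t) y² = f(x, t)`. A prime
`P` of `R` is bad (`IsBad`) if it contains `D` or if it lies over a point of `C` at which the partial
derivatives of `f` vanish. Let `b(D)` (`badSum`) be the number of the bad primes, minus the number of
the primes `v` of `k[t]` over which there is a bad prime `P` of odd degree (the degree of `P` over `v`,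
`relDegree`, is the exponent of `v` in the norm of `P`). Let the number of elements of the class group
of `R` with square 1, times the index of the group generated by the constants and the squares in the
group of units of `R`, be at most `2 ^ d`.

Theorem. For all nonzero `D` the 2-adic Selmer group of `E_D` over `K` (over all closed points of the
projective line over `k`) is generated by `d + b(D)` elements. If `E_D(K)` contains `r ≥ d + b(D)`
points which are independent modulo `2 E_D(K)`, then the 2-primary part of the Tate-Shafarevich group
of `E_D` over `K` is zero; in particular its 2-adic Tate module is zero.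

So the sum of the rank of `E_D(K)` and of the rank of the 2-adic Tate module of the Tate-Shafarevich
group is at most `d + b(D)`, with `b(D) ≤ b(1) + 2 n`, where `n` is the number of the prime factors of
`D`.

For example, let the units of `R` be constants and the class group of `R` without elements of order
two, and let all singular points of `C` have one branch of odd degree (fibres of the types `I_n`, `n`
odd, `II`, `IV`, `IV*`, `II*`). Then the second part applies with `r = 0` if the prime factors of `D` are
inert in `C`; and with `r = 1` if there are two points over one of the prime factors of `D`, one point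
over each of the others, and a point of `E_D(K)` which is not in `2 E_D(K)`.

The method is an arithmetic 2-descent over `K`: a locally trivial class with values in `E_D[2]` is
given by an element `z` of `N` modulo squares, whose norm is a square and whose valuations are even at
the good points. As the norm of a constant `u` is `u³`, no constants occur.
-/

namespace Pool.Agent.Results.MP_1bdb59_nt.ShaTwoPartCubicCurves

open Polynomial IsDedekindDomain Pool.Agent.TH115.GD
open scoped Classical

theorem result {k K N R : Type} [Field k] [Field K] [Algebra k[X] K] [IsFractionRing k[X] K]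
    [Field N] [Algebra K N] [Algebra k[X] N] [IsScalarTower k[X] K N]
    [CommRing R] [IsDedekindDomain R] [Algebra R N] [IsFractionRing R N]
    [Algebra k[X] R] [IsScalarTower k[X] R N] [Module.Finite k[X] R] [Module.IsTorsionFree k[X] R]
    (h2 : (2 : k) ≠ 0) {a₂ a₄ a₆ : k[X]}
    (hΔ : (twist K a₂ a₄ a₆ 1).Δ ≠ 0) (hnr : ∀ x : K, cub (twist K a₂ a₄ a₆ 1) x ≠ 0) {θ : N}
    (hθ : cub (twist K a₂ a₄ a₆ 1) θ = 0) (hN : IntermediateField.adjoin K {θ} = ⊤)
    (hfin : Finite {c : ClassGroup R // c ^ 2 = 1}) {U : Finset Rˣ}
    (hU : ∀ ε : Rˣ, ∃ η ∈ U, ∃ (u : k) (v : Rˣ), (ε : R) = algebraMap k[X] R (C u) * v ^ 2 * η)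
    {d : ℕ} (hd : Nat.card {c : ClassGroup R // c ^ 2 = 1} * U.card ≤ 2 ^ d)
    {D : k[X]} (hD : D ≠ 0) :
    SelmerGeneratedBy k (twist K a₂ a₄ a₆ D) (d + badSum R a₂ a₄ a₆ D θ) ∧
    ∀ {r : ℕ}, d + badSum R a₂ a₄ a₆ D θ ≤ r → ∀ P : Fin r → Pt (twist K a₂ a₄ a₆ D) K,
      (∀ T : Finset (Fin r), T.Nonempty → ∀ Q : Pt (twist K a₂ a₄ a₆ D) K,
        ∑ i ∈ T, P i ≠ Q + Q) → ShaTwo k (twist K a₂ a₄ a₆ D) :=
  both_ns h2 hΔ hnr hθ hN hfin hU hd hD

end Pool.Agent.Results.MP_1bdb59_nt.ShaTwoPartCubicCurves
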